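import Pool.Agent.LibPQ.FIN2

set_option autoImplicit false

/-!
# The rational case of `RootV` (helper86)
-/

namespace CM68

open Finset Polynomial

/-- the rational numbers inside the reals -/
private theorem RT_mem {v : ℝ} : v ∈ Submodule.span ℚ {(1 : ℝ)} ↔ ∃ r : ℚ, (r : ℝ) = v := by
  rw [Submodule.mem_span_singleton]
  constructor
  · rintro ⟨a, h⟩
    refine ⟨a, ?_⟩
    rw [← h, Rat.smul_def, mul_one]
  · rintro ⟨a, h⟩
    refine ⟨a, ?_⟩
    rw [← h, Rat.smul_def, mul_one]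

theorem rootV_rat (ρ : ℝ) : RootV (Submodule.span ℚ {(1 : ℝ)}) 1 ρ ↔ ∃ r : ℚ, ρ = r := by
  constructor
  · rintro ⟨P, hP, hg, hV, h⟩
    obtain ⟨a, ha⟩ := RT_mem.1 (hV 0)
    obtain ⟨b, hb⟩ := RT_mem.1 (hV 1)
    have h1 : P = C (P.coeff 1) * X + C (P.coeff 0) := eq_X_add_C_of_natDegree_le_one hg
    have h2 : (b : ℝ) * ρ + a = 0 := by
      rw [h1] at h
      simp only [eval_add, eval_mul, eval_C, eval_X] at h
      rw [hb, ha]
      exact h
    have h3 : (b : ℝ) ≠ 0 := by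
      intro h0
      apply hP
      have h4 : (a : ℝ) = 0 := by
        rw [h0, zero_mul, zero_add] at h2
        exact h2
      rw [h1, ← hb, ← ha, h0, h4]
      simp
    refine ⟨-a / b, ?_⟩
    push_cast
    rw [eq_div_iff h3]
    linarith
  · rintro ⟨r, rfl⟩
    refine ⟨X - C (r : ℝ), X_sub_C_ne_zero _, (natDegree_X_sub_C _).le, fun i => ?_, by simp⟩
    rw [coeff_sub, coeff_X, coeff_C]
    refine Submodule.sub_mem _ ?_ ?_
    · split_ifs
      · exact RT_mem.2 ⟨1, by push_cast; rfl⟩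
      · exact Submodule.zero_mem _
    · split_ifs
      · exact RT_mem.2 ⟨r, rfl⟩
      · exact Submodule.zero_mem _

theorem span_one_finite : Module.Finite ℚ (Submodule.span ℚ {(1 : ℝ)}) :=
  FiniteDimensional.span_of_finite ℚ (Set.finite_singleton _)

theorem span_one_rank : Module.finrank ℚ (Submodule.span ℚ {(1 : ℝ)}) ≤ 1 := by
  have h := finrank_span_le_card (R := ℚ) ({(1 : ℝ)} : Set ℝ)
  simpa using h

/-- the question as the member `y = 1 / 4` -/
theorem ratio_quarter :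
    (∃ r : ℚ, (∑' n : ℕ, 1 / ((n : ℝ) + 1) ^ 3) / Real.pi ^ 3 = r) ↔
      ∃ r : ℚ, hz 3 (1 / 4) / hz 3 (1 - 1 / 4) = r := by
  rw [← rootV_rat, ← rootV_rat]
  exact qV _ 1

/-- the number of rational numbers with a rational ratio -/
theorem ratio_rat {Q : ℕ} (hQ : 2 ≤ Q) :
    AtMost (fun y : ℚ => 0 < y ∧ y < 1 ∧ y.den ≤ Q ∧
      ∃ r : ℚ, hz 3 (y : ℝ) / hz 3 (1 - (y : ℝ)) = r) (EQ 3 3 (Real.log Q)) := by
  intro Y hY
  have h := vals_EQ (k := 3) (g := 1) (D := 1) (by norm_num) le_rfl le_rfl hQ span_one_finite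
    span_one_rank Y (by
      intro y hy
      obtain ⟨h0, h1, h2, h3⟩ := hY y hy
      exact ⟨h0, h1, h2, _, Or.inl rfl, (rootV_rat _).2 h3⟩)
  have e : 1 * (2 + 1).choose 1 = 3 := by decide
  rw [e] at h
  exact h

end CM68
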