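import Pool.Agent.LibPQ.FIN2

set_option autoImplicit false

/-!
# Relations over `V` between several Hurwitz values at rational numbers of bounded denominator (helper86; from the theorems of LibPQ)
-/

namespace CM68

open Finset Polynomial

/-- the numbers `ζ(k, y_c)`, `k ∈ J`, `c ∈ Cs`, `y_c = y + c` modulo one, are a zero of a nonzero real polynomial of total degree `≤ g` with
coefficients in `V` -/
def ZeroVQ (V : Submodule ℚ ℝ) (J : Finset ℕ) (Cs : Finset ℚ) (g : ℕ) (y : ℚ) : Prop :=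
  ∃ P : MvPolynomial (J ×ˢ Cs : Finset (ℕ × ℚ)) ℝ, P ≠ 0 ∧ P.totalDegree ≤ g ∧
    (∀ m, P.coeff m ∈ V) ∧
    MvPolynomial.eval (fun p : (J ×ˢ Cs : Finset (ℕ × ℚ)) =>
      hz (p : ℕ × ℚ).1 (fy y (p : ℕ × ℚ).2)) P = 0

theorem zeroVQ_zeroV {V : Submodule ℚ ℝ} {g q : ℕ} {J : Finset ℕ} {Cs : Finset ℚ} {y : ℚ}
    (hq : 1 ≤ q) (hy : 0 ≤ y) (hyd : y.den ∣ q) (hC : ∀ c ∈ Cs, 0 ≤ c ∧ c.den ∣ q)
    (H : ZeroVQ V J Cs g y) : ZeroV V J (Cs.image (lev q)) g q (lev q y) := by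
  obtain ⟨P, hP, hg, hc, hr⟩ := H
  have hmem : ∀ p : (J ×ˢ Cs : Finset (ℕ × ℚ)),
      ((p : ℕ × ℚ).1, lev q (p : ℕ × ℚ).2) ∈ (J ×ˢ Cs.image (lev q) : Finset (ℕ × ℕ)) := by
    intro p
    have h1 := mem_product.1 p.2
    exact mem_product.2 ⟨h1.1, mem_image_of_mem _ h1.2⟩
  obtain ⟨a, haeq⟩ : ∃ a : (J ×ˢ Cs : Finset (ℕ × ℚ)) → (J ×ˢ Cs.image (lev q) : Finset (ℕ × ℕ)),
      ∀ p, ((a p : ℕ × ℕ)) = ((p : ℕ × ℚ).1, lev q (p : ℕ × ℚ).2) :=
    ⟨fun p => ⟨_, hmem p⟩, fun p => rfl⟩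
  have ha : Function.Injective a := by
    intro p p' hpp
    have h1 : ((a p : ℕ × ℕ)) = (a p' : ℕ × ℕ) := by rw [hpp]
    rw [haeq, haeq, Prod.mk.injEq] at h1
    have h2 := hC _ (mem_product.1 p.2).2
    have h3 := hC _ (mem_product.1 p'.2).2
    exact Subtype.ext (Prod.ext h1.1 (lev_inj hq h2.1 h3.1 h2.2 h3.2 h1.2))
  refine ⟨MvPolynomial.rename a P, ?_, (MvPolynomial.totalDegree_rename_le a P).trans hg, ?_, ?_⟩
  · intro h0
    refine hP (MvPolynomial.rename_injective a ha ?_)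
    rw [h0, map_zero]
  · intro m
    by_cases hm : ∃ u, Finsupp.mapDomain a u = m
    · obtain ⟨u, rfl⟩ := hm
      rw [MvPolynomial.coeff_rename_mapDomain a ha]
      exact hc u
    · rw [MvPolynomial.coeff_rename_eq_zero a P m fun u hu => absurd ⟨u, hu⟩ hm]
      exact V.zero_mem
  · rw [MvPolynomial.eval_rename, ← hr]
    congr 2
    funext p
    have h1 := hC _ (mem_product.1 p.2).2
    rw [Function.comp_apply, haeq, ← lev_fract hq hy h1.1 hyd h1.2]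

/-- the number of exceptional rational numbers, relations over `V` -/
theorem zeroV_EQ {J : Finset ℕ} {w : ℕ} (hw : 1 ≤ w) (h2 : ∀ k ∈ J, 2 ≤ k ∧ k ≤ w)
    {r g D Q : ℕ} (hg : 1 ≤ g) (hD : 1 ≤ D) (hQ : 2 ≤ Q)
    {V : Submodule ℚ ℝ} (hVf : Module.Finite ℚ V) (hVD : Module.finrank ℚ V ≤ D)
    {Cs : Finset ℚ} (hcard : Cs.card = r) (hCs : ∀ c ∈ Cs, 0 ≤ c ∧ c < 1) :
    AtMost (fun y : ℚ => 0 ≤ y ∧ y < 1 ∧ DenQ Q Cs y ∧ (∀ c ∈ Cs, Int.fract (y + c) ≠ 0) ∧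
      ZeroVQ V J Cs g y) (EQ w (D * (J.card * r + g).choose g) (Real.log Q)) := by
  classical
  have hK1 : 1 ≤ D * (J.card * r + g).choose g :=
    Nat.mul_pos hD (Nat.choose_pos (Nat.le_add_left _ _))
  have hlog : 0 ≤ Real.log Q := Real.log_nonneg (by exact_mod_cast (by omega : 1 ≤ Q))
  intro Y hY
  rcases Y.eq_empty_or_nonempty with h0 | ⟨y₀, hy₀⟩
  · rw [h0, card_empty, Nat.cast_zero]
    unfold EQ
    positivity
  obtain ⟨q, hq⟩ : ∃ q, q = Q.factorial := ⟨_, rfl⟩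
  have hq2 : 2 ≤ q := by rw [hq]; exact FQ_fac hQ
  have hden : ∀ y ∈ Y, y.den ∣ q := fun y hy => by
    rw [hq]
    exact (FQ_den (hY y hy).2.2.1).1
  have hdenC : ∀ c ∈ Cs, c.den ∣ q := fun c hc => by
    rw [hq]
    exact (FQ_den (hY y₀ hy₀).2.2.1).2 c hc
  have hcardY : (Y.image (lev q)).card = Y.card := by
    refine card_image_of_injOn ?_
    intro y hy y' hy' h
    exact lev_inj (by omega) (hY y hy).1 (hY y' hy').1 (hden y hy) (hden y' hy') h
  have hcardC : (Cs.image (lev q)).card = r := by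
    rw [← hcard]
    refine card_image_of_injOn ?_
    intro c hc c' hc' h
    exact lev_inj (by omega) (hCs c hc).1 (hCs c' hc').1 (hdenC c hc) (hdenC c' hc') h
  have hsub : ((Y.image (lev q) : Finset ℕ) : Set ℕ) ⊆ {x : ℕ | x < q ∧
      (∀ c ∈ Cs.image (lev q), 0 < (x + c) % q) ∧ DenC Q q x (Cs.image (lev q)) ∧
      ZeroV V J (Cs.image (lev q)) g q x} := by
    intro x hx
    rw [mem_coe, mem_image] at hx
    obtain ⟨y, hy, rfl⟩ := hx
    obtain ⟨h0, h1, h2, h3, h4⟩ := hY y hy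
    have hdy := hden y hy
    refine ⟨lev_lt (by omega) h0 h1 hdy, ?_, ?_, ?_⟩
    · intro c' hc'
      obtain ⟨c, hc, rfl⟩ := mem_image.1 hc'
      exact lev_pos (by omega) h0 (hCs c hc).1 hdy (hdenC c hc) (h3 c hc)
    · have h5 := FQ_DenC hQ (A := Cs) h0 (fun c hc => (hCs c hc).1) h2
      rw [← hq] at h5
      exact h5
    · exact zeroVQ_zeroV (by omega) h0 hdy (fun c hc => ⟨(hCs c hc).1, hdenC c hc⟩) h4
  have h1 := Set.ncard_le_ncard hsub ((Set.finite_Iio q).subset fun x hx => hx.1)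
  rw [Set.ncard_coe_finset, hcardY] at h1
  have h3 := zeroV_countQ (J := J) (w := w) (r := r) (g := g) (D := D) (q := q) (lam := LX Q)
    (Qb := Q) h2 hg hq2 hQ (le_LX Q) hVf hVD hcardC (by
      intro c' hc'
      obtain ⟨c, hc, rfl⟩ := mem_image.1 hc'
      exact lev_lt (by omega) (hCs c hc).1 (hCs c hc).2 (hdenC c hc))
  have h4 : (Y.card : ℝ) ≤ (bQ w (D * (J.card * r + g).choose g) (LX Q) : ℝ) := by
    exact_mod_cast h1.trans h3
  have h5 := bQ_real (w := w) (K := D * (J.card * r + g).choose g) hQ hw hK1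
  linarith

/-- if `ζ(3) / π^3` is rational, then `y = 1 / 2` is exceptional for `J = {3}` and the shift `0` -/
theorem zeroVQ_half {V : Submodule ℚ ℝ} (h1 : (1 : ℝ) ∈ V) (h2 : Real.pi ^ 3 ∈ V)
    (H : ∃ t : ℚ, ∑' n : ℕ, 1 / ((n : ℝ) + 1) ^ 3 = t * Real.pi ^ 3) :
    ZeroVQ V {3} {0} 1 (1 / 2) := by
  classical
  obtain ⟨t, ht⟩ := H
  obtain ⟨p, hp⟩ : ∃ p : (({3} : Finset ℕ) ×ˢ ({0} : Finset ℚ) : Finset (ℕ × ℚ)),
      p = ⟨(3, 0), by simp⟩ := ⟨_, rfl⟩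
  have hfy : fy (1 / 2) 0 = 1 / 2 := by
    unfold fy
    have : Int.fract ((1 : ℚ) / 2 + 0) = 1 / 2 := by
      rw [Int.fract_eq_iff]
      refine ⟨by norm_num, by norm_num, 0, by norm_num⟩
    rw [this]
    norm_num
  refine ⟨MvPolynomial.X p - MvPolynomial.C (7 * (t : ℝ) * Real.pi ^ 3), ?_, ?_, ?_, ?_⟩
  · intro h0
    have h3 := congrArg (MvPolynomial.coeff (Finsupp.single p 1)) h0
    rw [MvPolynomial.coeff_sub, MvPolynomial.coeff_C, MvPolynomial.coeff_zero,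
      MvPolynomial.coeff_X] at h3
    have h4 : (0 : (({3} : Finset ℕ) ×ˢ ({0} : Finset ℚ) : Finset (ℕ × ℚ)) →₀ ℕ) ≠
        Finsupp.single p 1 := by
      intro h5
      have := congrArg (fun f => f p) h5
      simp at this
    rw [if_neg h4] at h3
    norm_num at h3
  · refine (MvPolynomial.totalDegree_sub _ _).trans ?_
    rw [MvPolynomial.totalDegree_X, MvPolynomial.totalDegree_C]
    norm_num
  · intro m
    rw [MvPolynomial.coeff_sub, MvPolynomial.coeff_C, MvPolynomial.coeff_X]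
    refine V.sub_mem ?_ ?_
    · split_ifs
      · exact h1
      · exact V.zero_mem
    · split_ifs
      · have h3 := V.smul_mem (7 * t) h2
        rw [Rat.smul_def] at h3
        push_cast at h3
        exact h3
      · exact V.zero_mem
  · rw [map_sub, MvPolynomial.eval_X, MvPolynomial.eval_C, hp]
    show hz 3 (fy (1 / 2) 0) - _ = 0
    rw [hfy, hz_half, ht]
    ring

end CM68
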